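import Pool.Agent.Helper14.BSC.Stmts2

set_option autoImplicit false

namespace Pool.Agent.Helper14.BSC

open Polynomial

theorem lzc_countable (F : Type) [Field F] [CharZero F] (h : (⊤ : IntermediateField ℚ F).FG) :
    Countable F := by
  obtain ⟨t, ht⟩ := h
  have h1 := IntermediateField.cardinalMk_adjoin_le ℚ (t : Set F)
  rw [ht] at h1
  have h2 : Cardinal.mk (⊤ : IntermediateField ℚ F) ≤ Cardinal.aleph0 := by
    refine h1.trans ?_
    simp
  have h3 : Countable (⊤ : IntermediateField ℚ F) := Cardinal.mk_le_aleph0_iff.mp h2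
  have h4 : Function.Injective (fun x : F => (⟨x, trivial⟩ : (⊤ : IntermediateField ℚ F))) := by
    intro x y hxy
    exact congrArg Subtype.val hxy
  exact h4.countable

/-- the transcendental elements of `ℚ_p` over the image of `j` -/
def lzcT (F : Type) [Field F] (p : ℕ) [Fact p.Prime] (j : F →+* ℂ_[p]) : Set ℚ_[p] :=
  {τ | ∀ P : F[X], P ≠ 0 → P.eval₂ j (algebraMap ℚ_[p] ℂ_[p] τ) ≠ 0}

theorem lzc_inf (F : Type) [Field F] [Countable F] (p : ℕ) [Fact p.Prime] (j : F →+* ℂ_[p]) :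
    (lzcT F p j).Infinite := by
  intro hfin
  have hc : (lzcT F p j)ᶜ.Countable := by
    have hcP : Countable F[X] := by
      rw [← Cardinal.mk_le_aleph0_iff]
      refine (Polynomial.cardinalMk_le_max).trans ?_
      exact max_le (Cardinal.mk_le_aleph0_iff.mpr inferInstance) le_rfl
    have hsub : (lzcT F p j)ᶜ ⊆ ⋃ P : {P : F[X] // P ≠ 0},
        {τ : ℚ_[p] | (P.1).eval₂ j (algebraMap ℚ_[p] ℂ_[p] τ) = 0} := by
      intro τ hτ
      simp only [lzcT, Set.mem_compl_iff, Set.mem_setOf_eq, not_forall, not_not] at hτ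
      obtain ⟨P, hP, hP2⟩ := hτ
      exact Set.mem_iUnion.mpr ⟨⟨P, hP⟩, hP2⟩
    refine Set.Countable.mono hsub (Set.countable_iUnion ?_)
    rintro ⟨P, hP⟩
    apply Set.Finite.countable
    have h1 : (P.map j) ≠ 0 := (Polynomial.map_ne_zero_iff j.injective).mpr hP
    have h2 := Polynomial.finite_setOf_isRoot h1
    have h3 : {τ : ℚ_[p] | P.eval₂ j (algebraMap ℚ_[p] ℂ_[p] τ) = 0} =
        (algebraMap ℚ_[p] ℂ_[p]) ⁻¹' {x | (P.map j).IsRoot x} := by
      ext τ
      simp [Polynomial.IsRoot, Polynomial.eval_map]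
    rw [h3]
    exact h2.preimage ((algebraMap ℚ_[p] ℂ_[p]).injective.injOn)
  have huniv : (Set.univ : Set ℚ_[p]).Countable := by
    rw [← Set.union_compl_self (lzcT F p j)]
    exact hfin.countable.union hc
  have h4 : Countable ℚ_[p] := Set.countable_univ_iff.mp huniv
  have h5 := continuum_le_cardinal_of_nontriviallyNormedField ℚ_[p]
  have h6 := Cardinal.mk_le_aleph0_iff.mpr h4
  exact absurd (h5.trans h6) (not_le.mpr Cardinal.aleph0_lt_continuum)

theorem lzc_const (F : Type) [Field F] (N : ℕ) (hN : 0 < N) (c : F) (y : RatFunc F)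
    (h : y ^ N = algebraMap F (RatFunc F) c) : ∃ t : F, c = t ^ N := by
  have h1 : IsIntegral F[X] (y ^ N) := by
    rw [h, IsScalarTower.algebraMap_apply F F[X] (RatFunc F)]
    exact isIntegral_algebraMap
  obtain ⟨P, hP⟩ := IsIntegrallyClosed.exists_algebraMap_eq_of_isIntegral_pow hN h1
  have h2 : P ^ N = C c := by
    apply IsFractionRing.injective F[X] (RatFunc F)
    rw [map_pow, hP, h, IsScalarTower.algebraMap_apply F F[X] (RatFunc F)]
    rfl
  have h3 : P.natDegree = 0 := by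
    have h4 := congrArg natDegree h2
    rw [natDegree_pow, natDegree_C] at h4
    rcases mul_eq_zero.mp h4 with h5 | h5
    · omega
    · exact h5
  obtain ⟨t, ht⟩ := Polynomial.natDegree_eq_zero.mp h3
  refine ⟨t, ?_⟩
  rw [← ht, ← C_pow] at h2
  exact (C_injective h2).symm

theorem lzc_cls (F : Type) [Field F] (b : ℕ → RatFunc F) (a : ℕ → F) (r₀ : RatFunc F)
    (z : ℕ → RatFunc F) (hb : Cls b) (hr₀ : r₀ ≠ 0) (ha : ∀ N, 0 < N → a N ≠ 0)
    (hz : ∀ N, 0 < N → z N ≠ 0)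
    (hab : ∀ N, 0 < N → b N = r₀ * (algebraMap F (RatFunc F) (a N) * z N ^ N)) : Cls a := by
  refine ⟨ha, ?_⟩
  intro N M hN hM
  have hNM : 0 < N * M := Nat.mul_pos hN hM
  obtain ⟨s, hs⟩ := hb.2 N M hN hM
  have haN := ha N hN
  have haNM := ha (N * M) hNM
  have hinj : Function.Injective (algebraMap F (RatFunc F)) := (algebraMap F (RatFunc F)).injective
  have haN' : algebraMap F (RatFunc F) (a N) ≠ 0 := by
    rw [Ne, map_eq_zero_iff _ hinj]; exact haN
  have hzN := hz N hN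
  have hzNM := hz (N * M) hNM
  obtain ⟨t, ht⟩ := lzc_const F N hN (a (N * M) / a N) (z N * s / z (N * M) ^ M) (by
    rw [map_div₀, div_pow, mul_pow, ← pow_mul, mul_comm M N, div_eq_div_iff (pow_ne_zero _ hzNM) haN']
    rw [hab N hN, hab (N * M) hNM] at hs
    have h1 : algebraMap F (RatFunc F) (a (N * M)) * z (N * M) ^ (N * M) =
        algebraMap F (RatFunc F) (a N) * z N ^ N * s ^ N := by
      apply mul_left_cancel₀ hr₀
      rw [hs]; ring
    rw [h1]; ring)
  refine ⟨t, ?_⟩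
  rw [← ht]
  field_simp

theorem st_LZC (hLIM : ST_LIM) : ST_LZC := by
  intro F _ _ hFG hLZ b U a r₀ z hb hU hloc hr₀ ha hz hab
  have hcount := lzc_countable F hFG
  have hcls := lzc_cls F b a r₀ z hb hr₀ ha hz hab
  classical
  -- common denominators
  set s : Finset ℕ := Finset.range (U.natDegree + 1) with hs
  obtain ⟨q, hq⟩ := IsLocalization.exist_integer_multiples (nonZeroDivisors F[X]) s
    (fun i => U.coeff i * r₀ ^ i)
  have hq0 : (q : F[X]) ≠ 0 := nonZeroDivisors.ne_zero q.2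
  choose! v hv using hq
  have h0s : 0 ∈ s := by rw [hs]; simp
  have hv0 : v 0 ≠ 0 := by
    intro h
    have h1 := hv 0 h0s
    rw [h, map_zero, pow_zero, mul_one, Algebra.smul_def] at h1
    have h2 : algebraMap F[X] (RatFunc F) q ≠ 0 := by
      rw [Ne, map_eq_zero_iff _ (IsFractionRing.injective F[X] (RatFunc F))]; exact hq0
    rcases mul_eq_zero.mp h1.symm with h3 | h3
    · exact h2 h3
    · apply hU
      rw [← coeff_zero_eq_eval_zero]; exact h3
  obtain ⟨l, hl⟩ : ∃ l, (v 0).coeff l ≠ 0 := by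
    by_contra hcon
    push Not at hcon
    exact hv0 (Polynomial.ext (by simpa using hcon))
  set U' : F[X] := ∑ i ∈ s, monomial i ((v i).coeff l) with hU'
  have hU'0 : U'.eval 0 ≠ 0 := by
    rw [hU', ← coeff_zero_eq_eval_zero, finset_sum_coeff]
    rw [Finset.sum_eq_single 0]
    · simpa using hl
    · intro i _ hi
      rw [coeff_monomial, if_neg hi]
    · intro h; exact absurd h0s h
  refine hLZ a U' hcls hU'0 ?_
  intro p _
  obtain ⟨d, hd, hd2⟩ := hloc p
  refine ⟨d, hd, ?_⟩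
  intro j E hE hjE
  -- data for every transcendental `τ`
  have key : ∀ τ ∈ lzcT F p j, ∃ J : RatFunc F →+* ℂ_[p],
      (∀ P : F[X], J (algebraMap F[X] (RatFunc F) P) = P.eval₂ j (algebraMap ℚ_[p] ℂ_[p] τ)) ∧
      ∃ Φ : ℂ_[p], Φ ≠ 0 ∧ (U.map J).eval (J r₀ * Φ) = 0 ∧
        ∃ E' : IntermediateField ℚ_[p] ℂ_[p], FiniteDimensional ℚ_[p] E' ∧
          ∀ N : ℕ, 0 < N → ∀ δ : ℝ, 0 < δ → ∃ y ∈ E', ∃ w ∈ E', j (a N) = y * w ^ N ∧ ‖y - Φ‖ < δ ∧
            ∃ w₁ ∈ E, ‖w‖ ^ d = ‖w₁‖ := by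
    intro τ hτ
    have hinj : Function.Injective (eval₂RingHom j (algebraMap ℚ_[p] ℂ_[p] τ)) := by
      rw [injective_iff_map_eq_zero]
      intro P hP
      by_contra hne
      exact hτ P hne hP
    set J : RatFunc F →+* ℂ_[p] := IsFractionRing.lift hinj with hJ
    have hJP : ∀ P : F[X], J (algebraMap F[X] (RatFunc F) P) =
        P.eval₂ j (algebraMap ℚ_[p] ℂ_[p] τ) := by
      intro P
      rw [hJ, IsFractionRing.lift_algebraMap]
      rfl
    have hPE : ∀ P : F[X], P.eval₂ j (algebraMap ℚ_[p] ℂ_[p] τ) ∈ E := by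
      intro P
      rw [eval₂_eq_sum_range]
      apply sum_mem
      intro i _
      exact mul_mem (hjE _) (pow_mem (IntermediateField.algebraMap_mem E τ) i)
    have hJE : ∀ x : RatFunc F, J x ∈ E := by
      intro x
      obtain ⟨A, B, -, rfl⟩ := IsFractionRing.div_surjective (A := F[X]) x
      rw [map_div₀, hJP, hJP]
      exact div_mem (hPE A) (hPE B)
    have hJ0 : ∀ x : RatFunc F, x ≠ 0 → J x ≠ 0 := by
      intro x hx
      rw [Ne, map_eq_zero_iff _ J.injective]; exact hx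
    have hJj : ∀ c : F, J (algebraMap F (RatFunc F) c) = j c := by
      intro c
      rw [IsScalarTower.algebraMap_apply F F[X] (RatFunc F), hJP]
      change eval₂ j _ (C c) = j c
      rw [eval₂_C]
    obtain ⟨Φ, hΦ0, hΦ1, E', hE', hΦ2⟩ := hd2 J E hE hJE
    have hr := hJ0 r₀ hr₀
    refine ⟨J, hJP, Φ / J r₀, div_ne_zero hΦ0 hr, ?_, E' ⊔ E, ?_, ?_⟩
    · rw [mul_div_cancel₀ _ hr]; exact hΦ1
    · exact IntermediateField.finiteDimensional_sup E' E
    · intro N hN δ hδ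
      have hrn : 0 < ‖J r₀‖ := norm_pos_iff.mpr hr
      obtain ⟨y, hy, w, hw, h1, h2, w₁, hw₁, h3⟩ := hΦ2 N hN (δ * ‖J r₀‖) (by positivity)
      have hzN := hJ0 (z N) (hz N hN)
      have hle1 : E' ≤ E' ⊔ E := le_sup_left
      have hle2 : E ≤ E' ⊔ E := le_sup_right
      refine ⟨y / J r₀, div_mem (hle1 hy) (hle2 (hJE r₀)), w / J (z N),
        div_mem (hle1 hw) (hle2 (hJE (z N))), ?_, ?_, w₁ / J (z N) ^ d,
        div_mem hw₁ (pow_mem (hJE (z N)) d), ?_⟩
      · rw [hab N hN, map_mul, map_mul, map_pow, hJj] at h1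
        have h4 : j (a N) = y * w ^ N / (J r₀ * J (z N) ^ N) := by
          rw [← h1]; field_simp
        rw [h4, div_pow]; field_simp
      · rw [← sub_div, norm_div, div_lt_iff₀ hrn]
        exact h2
      · rw [norm_div, norm_div, norm_pow, div_pow, h3]
  -- the infinitely many `τ`
  have hinf := lzc_inf F p j
  obtain ⟨τ₀, hτ₀⟩ := hinf.nonempty
  obtain ⟨J₀, -, Φ₀, hΦ₀, -, E₀, hE₀, hdata⟩ := key τ₀ hτ₀
  have hja : ∀ N, 0 < N → j (a N) ≠ 0 := by
    intro N hN
    rw [Ne, map_eq_zero_iff _ j.injective]; exact ha N hN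
  have hall : ∀ τ ∈ lzcT F p j, ∃ J : RatFunc F →+* ℂ_[p],
      (∀ P : F[X], J (algebraMap F[X] (RatFunc F) P) = P.eval₂ j (algebraMap ℚ_[p] ℂ_[p] τ)) ∧
      (U.map J).eval (J r₀ * Φ₀) = 0 := by
    intro τ hτ
    obtain ⟨J, hJ, Φ, hΦ, hΦU, E', hE', hdata'⟩ := key τ hτ
    refine ⟨J, hJ, ?_⟩
    have heq : Φ / Φ₀ = 1 := by
      refine hLIM p (E' ⊔ E₀) (IntermediateField.finiteDimensional_sup E' E₀) (Φ / Φ₀)
        (div_ne_zero hΦ hΦ₀) ?_
      intro n hn δ hδ
      have hcont : ContinuousAt (fun r : ℂ_[p] × ℂ_[p] => r.1 / r.2) (Φ, Φ₀) :=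
        ContinuousAt.div continuousAt_fst continuousAt_snd hΦ₀
      obtain ⟨ε, hε, hε2⟩ := Metric.continuousAt_iff.mp hcont δ hδ
      obtain ⟨y, hy, w, hw, e1, e2, -⟩ := hdata' n hn ε hε
      obtain ⟨y₀, hy₀, w₀, hw₀, e3, e4, -⟩ := hdata n hn ε hε
      have hw0 : w ≠ 0 := by
        rintro rfl
        apply hja n hn
        rw [e1, zero_pow hn.ne', mul_zero]
      have hy00 : y₀ ≠ 0 := by
        rintro rfl
        apply hja n hn
        rw [e3, zero_mul]
      have hle1 : E' ≤ E' ⊔ E₀ := le_sup_left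
      have hle2 : E₀ ≤ E' ⊔ E₀ := le_sup_right
      refine ⟨w₀ / w, div_mem (hle2 hw₀) (hle1 hw), ?_⟩
      have h5 : (w₀ / w) ^ n = y / y₀ := by
        rw [div_pow, div_eq_div_iff (pow_ne_zero n hw0) hy00, mul_comm, ← e3, e1]
      rw [h5]
      have h6 := @hε2 (y, y₀) (by
        rw [Prod.dist_eq, dist_eq_norm, dist_eq_norm]
        exact max_lt e2 e4)
      rw [dist_eq_norm] at h6
      exact h6
    have heq2 : Φ = Φ₀ := (div_eq_one_iff_eq hΦ₀).mp heq
    rw [← heq2]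
    exact hΦU
  -- the polynomial `Q`
  set Q : ℂ_[p][X] := ∑ i ∈ s, (v i).map j * C (Φ₀ ^ i) with hQ
  have hQ0 : Q = 0 := by
    apply Polynomial.eq_zero_of_infinite_isRoot
    refine Set.Infinite.mono ?_ (hinf.image ((algebraMap ℚ_[p] ℂ_[p]).injective.injOn))
    rintro x ⟨τ, hτ, rfl⟩
    obtain ⟨J, hJ, hJU⟩ := hall τ hτ
    simp only [Set.mem_setOf_eq, Polynomial.IsRoot]
    rw [hQ, eval_finset_sum]
    have h1 : ∀ i ∈ s, ((v i).map j * C (Φ₀ ^ i)).eval (algebraMap ℚ_[p] ℂ_[p] τ) =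
        J (algebraMap F[X] (RatFunc F) q) * (J (U.coeff i) * (J r₀ * Φ₀) ^ i) := by
      intro i hi
      rw [eval_mul, eval_C, eval_map, ← hJ, hv i hi, Algebra.smul_def, map_mul, map_mul, map_pow,
        mul_pow]
      ring
    rw [Finset.sum_congr rfl h1, ← Finset.mul_sum]
    rw [eval_map, eval₂_eq_sum_range] at hJU
    rw [hs, hJU, mul_zero]
  have hQl : (U'.map j).eval Φ₀ = 0 := by
    have h1 := congrArg (fun R : ℂ_[p][X] => R.coeff l) hQ0
    simp only [hQ, finset_sum_coeff, coeff_mul_C, coeff_map, coeff_zero] at h1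
    rw [hU', Polynomial.map_sum, eval_finset_sum]
    rw [← h1]
    apply Finset.sum_congr rfl
    intro i _
    rw [map_monomial, eval_monomial]
  exact ⟨Φ₀, hΦ₀, hQl, E₀, hE₀, hdata⟩

end Pool.Agent.Helper14.BSC
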