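import Pool.Agent.Helper14.BSC.Stmts

set_option autoImplicit false

namespace Pool.Agent.Helper14.BSC

/-- the abstract `2`-structure -/
theorem pad2_core (F : Type) [Field F] (v : F → ℝ) (h0 : ∀ x, v x = 0 ↔ x = 0)
    (hnn : ∀ x, 0 ≤ v x) (hmul : ∀ x y, v (x * y) = v x * v y)
    (hadd : ∀ x y, v (x + y) ≤ max (v x) (v y)) (r : ℝ) (hr0 : 0 < r) (hr1 : r < 1)
    (ϖ : F) (hϖ : v ϖ = r) (U : F → Prop) (hU : ∀ u, U u → v u = 1)
    (hapx : ∀ x, x ≠ 0 → ∃ j : ℤ, ∃ u, U u ∧ v (x - u * ϖ ^ j) < r ^ j)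
    (hsq : ∀ x, v (x - 1) < 1 → IsSquare x)
    (e : F) (he : v e = 1) (hUe : ∀ u, U u → IsSquare u ∨ IsSquare (e * u))
    (hne : ∀ u, U u → 1 ≤ v (u ^ 2 - e)) (hne' : ∀ u, U u → 1 ≤ v (u ^ 2 - (1 - e)))
    (h1e : v (1 - e) = 1) (h1 : IsSquare (-1 : F)) :
    ¬ IsSquare e ∧ ¬ IsSquare (1 - e) ∧
      (∀ x y : F, Od e x → Od e y → IsSquare (x * y) ∨ IsSquare (e * (x * y))) ∧
      (∀ c d a b : F, d ≠ 0 → ¬ IsSquare c → ¬ IsSquare d → ¬ IsSquare (c * d) →
        d ≠ a ^ 2 - c * b ^ 2) := by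
  have hv1 : v 1 = 1 := by
    have h := hmul 1 1
    rw [mul_one] at h
    have h2 : v 1 ≠ 0 := by rw [Ne, h0]; exact one_ne_zero
    have h3 : v 1 * (v 1 - 1) = 0 := by linarith
    rcases mul_eq_zero.mp h3 with h4 | h4
    · exact absurd h4 h2
    · linarith
  have hneg : ∀ x, v (-x) = v x := by
    intro x
    have h2 : v (-1) * v (-1) = 1 := by
      rw [← hmul, neg_mul_neg, one_mul, hv1]
    have h3 : v (-1) = 1 := by
      have h4 := hnn (-1)
      nlinarith
    rw [← neg_one_mul, hmul, h3, one_mul]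
  have hsub : ∀ x y, v (x - y) ≤ max (v x) (v y) := by
    intro x y
    rw [sub_eq_add_neg]
    refine (hadd x (-y)).trans ?_
    rw [hneg]
  have hpos : ∀ x, x ≠ 0 → 0 < v x := fun x hx =>
    lt_of_le_of_ne (hnn x) (fun h => hx ((h0 x).mp h.symm))
  have hpow : ∀ (x : F) (n : ℕ), v (x ^ n) = v x ^ n := by
    intro x n
    induction n with
    | zero => simp [hv1]
    | succ n ih => rw [pow_succ, hmul, ih, pow_succ]
  have hinv : ∀ x, v x⁻¹ = (v x)⁻¹ := by
    intro x
    by_cases hx : x = 0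
    · rw [hx, inv_zero, (h0 0).mpr rfl, inv_zero]
    · have h2 : v x * v x⁻¹ = 1 := by rw [← hmul, mul_inv_cancel₀ hx, hv1]
      exact (inv_eq_of_mul_eq_one_right h2).symm
  have hdiv : ∀ x y, v (x / y) = v x / v y := by
    intro x y
    rw [div_eq_mul_inv, hmul, hinv, div_eq_mul_inv]
  have hzpow : ∀ (x : F) (n : ℤ), v (x ^ n) = v x ^ n := by
    intro x n
    cases n with
    | ofNat n => simpa using hpow x n
    | negSucc n => rw [zpow_negSucc, zpow_negSucc, hinv, hpow]
  -- dominance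
  have hdom : ∀ x y, v y < v x → v (x + y) = v x := by
    intro x y hxy
    apply le_antisymm
    · refine (hadd x y).trans ?_
      rw [max_eq_left hxy.le]
    · by_contra hcon
      push Not at hcon
      have h2 := hsub (x + y) y
      rw [add_sub_cancel_right] at h2
      have := lt_of_le_of_lt h2 (max_lt hcon hxy)
      exact lt_irrefl _ this
  have hdomsub : ∀ x y, v (x - y) < v x → v x = v y := by
    intro x y hxy
    have h2 := hdom x (-(x - y)) (by rw [hneg]; exact hxy)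
    rw [← h2]
    congr 1
    ring
  -- values of squares
  have hsqv : ∀ x, x ≠ 0 → IsSquare x → ∃ j : ℤ, v x = r ^ (2 * j) := by
    rintro x hx ⟨y, rfl⟩
    have hy : y ≠ 0 := by rintro rfl; simp at hx
    obtain ⟨j, u, hu, hj⟩ := hapx y hy
    have h2 : v (u * ϖ ^ j) = r ^ j := by rw [hmul, hU u hu, hzpow, hϖ, one_mul]
    have h3 : v y = r ^ j := by
      have h4 := hdomsub (u * ϖ ^ j) y (by
        rw [h2, ← hneg, neg_sub]; exact hj)
      rw [← h4, h2]
    refine ⟨j, ?_⟩
    rw [hmul, h3, two_mul, zpow_add₀ hr0.ne']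
  -- dichotomy
  have hval : ∀ x, x ≠ 0 → ∃ j : ℤ, v x = r ^ j ∧ ∃ u, U u ∧ IsSquare (x / (u * ϖ ^ j)) := by
    intro x hx
    obtain ⟨j, u, hu, hj⟩ := hapx x hx
    have h2 : v (u * ϖ ^ j) = r ^ j := by rw [hmul, hU u hu, hzpow, hϖ, one_mul]
    have h3 : v x = r ^ j := by
      have h4 := hdomsub (u * ϖ ^ j) x (by
        rw [h2, ← hneg, neg_sub]; exact hj)
      rw [← h4, h2]
    have hrj : 0 < r ^ j := zpow_pos hr0 j
    have hne0 : u * ϖ ^ j ≠ 0 := by
      intro h
      rw [(h0 _).mpr h] at h2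
      exact hrj.ne h2
    refine ⟨j, h3, u, hu, hsq _ ?_⟩
    have h5 : x / (u * ϖ ^ j) - 1 = (x - u * ϖ ^ j) / (u * ϖ ^ j) := by
      rw [sub_div, div_self hne0]
    rw [h5, hdiv, h2, div_lt_one hrj]
    exact hj
  have heven : ∀ x, x ≠ 0 → (∃ j : ℤ, v x = r ^ (2 * j)) → IsSquare x ∨ IsSquare (e * x) := by
    rintro x hx ⟨j, hj⟩
    obtain ⟨i, hi, u, hu, hs⟩ := hval x hx
    have hij : i = 2 * j := by
      have h2 : r ^ i = r ^ (2 * j) := by rw [← hi, hj]
      exact zpow_right_injective₀ hr0 hr1.ne h2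
    subst hij
    have hne0 : u * ϖ ^ (2 * j) ≠ 0 := by
      intro h
      have h2 : v (u * ϖ ^ (2 * j)) = r ^ (2 * j) := by rw [hmul, hU u hu, hzpow, hϖ, one_mul]
      rw [(h0 _).mpr h] at h2
      exact (zpow_pos hr0 _).ne h2
    have hϖs : IsSquare (ϖ ^ (2 * j)) := ⟨ϖ ^ j, by
      have hϖ0 : ϖ ≠ 0 := by
        intro h; rw [h, (h0 0).mpr rfl] at hϖ; exact hr0.ne hϖ
      rw [two_mul, zpow_add₀ hϖ0]⟩
    have hx2 : x = u * (ϖ ^ (2 * j) * (x / (u * ϖ ^ (2 * j)))) := by
      rw [← mul_assoc, mul_comm (u * ϖ ^ (2 * j)), div_mul_cancel₀ x hne0]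
    rcases hUe u hu with h | h
    · left
      rw [hx2]
      exact h.mul (hϖs.mul hs)
    · right
      rw [hx2, ← mul_assoc]
      exact h.mul (hϖs.mul hs)
  have hodd : ∀ x, Od e x → ∃ j : ℤ, v x = r ^ (2 * j + 1) := by
    intro x hx
    have hx0 : x ≠ 0 := by
      rintro rfl
      exact hx.1 ⟨0, by simp⟩
    obtain ⟨i, hi, -⟩ := hval x hx0
    rcases Int.even_or_odd' i with ⟨j, hj | hj⟩
    · exfalso
      rcases heven x hx0 ⟨j, by rw [hi, hj]⟩ with h | h
      · exact hx.1 h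
      · exact hx.2 h
    · exact ⟨j, by rw [hi, hj]⟩
  have hnotsq : ∀ x : F, v x = 1 → (∀ u, U u → 1 ≤ v (u ^ 2 - x)) → ¬ IsSquare x := by
    rintro x hx hxu ⟨y, rfl⟩
    have hy : y ≠ 0 := by
      rintro rfl
      rw [mul_zero, (h0 0).mpr rfl] at hx
      exact zero_ne_one hx
    have hvy : v y = 1 := by
      rw [hmul] at hx
      have := hnn y
      nlinarith
    obtain ⟨j, u, hu, hj⟩ := hapx y hy
    have h2 : v (u * ϖ ^ j) = r ^ j := by rw [hmul, hU u hu, hzpow, hϖ, one_mul]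
    have h3 : v y = r ^ j := by
      have h4 := hdomsub (u * ϖ ^ j) y (by
        rw [h2, ← hneg, neg_sub]; exact hj)
      rw [← h4, h2]
    have hj0 : j = 0 := by
      have h5 : r ^ j = r ^ (0 : ℤ) := by rw [← h3, hvy, zpow_zero]
      exact zpow_right_injective₀ hr0 hr1.ne h5
    subst hj0
    rw [zpow_zero, zpow_zero, mul_one] at hj
    have h6 : v (u ^ 2 - y * y) < 1 := by
      have h7 : u ^ 2 - y * y = -((y - u) * (u + y)) := by ring
      rw [h7, hneg, hmul]
      have h8 : v (u + y) ≤ 1 := by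
        refine (hadd u y).trans ?_
        rw [hU u hu, hvy, max_self]
      have h9 := hnn (y - u)
      have h10 := hnn (u + y)
      nlinarith
    exact absurd (hxu u hu) (not_le.mpr h6)
  have hesq : ¬ IsSquare e := hnotsq e he hne
  refine ⟨hesq, hnotsq (1 - e) h1e hne', ?_, ?_⟩
  · intro x y hx hy
    obtain ⟨i, hi⟩ := hodd x hx
    obtain ⟨j, hj⟩ := hodd y hy
    have hx0 : x ≠ 0 := by rintro rfl; exact hx.1 ⟨0, by simp⟩
    have hy0 : y ≠ 0 := by rintro rfl; exact hy.1 ⟨0, by simp⟩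
    apply heven _ (mul_ne_zero hx0 hy0)
    refine ⟨i + j + 1, ?_⟩
    rw [hmul, hi, hj, ← zpow_add₀ hr0.ne']
    congr 1
    ring
  · intro c d a b hd hc hd' hcd heq
    have hc0 : c ≠ 0 := by rintro rfl; exact hc ⟨0, by simp⟩
    have he0 : e ≠ 0 := by
      rintro rfl
      exact hesq ⟨0, by simp⟩
    obtain ⟨i, hi, -⟩ := hval c hc0
    rcases Int.even_or_odd' i with ⟨j, hj | hj⟩
    · -- even
      have hec : IsSquare (e * c) := by
        rcases heven c hc0 ⟨j, by rw [hi, hj]⟩ with h | h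
        · exact absurd h hc
        · exact h
      obtain ⟨t, ht⟩ := hec
      set s := t / e with hs
      have hcs : c = e * s ^ 2 := by
        rw [hs]
        field_simp
        linear_combination ht
      have hdv : ∃ j : ℤ, v d = r ^ (2 * j) := by
        have hd2 : d = a ^ 2 - e * (s * b) ^ 2 := by rw [heq, hcs]; ring
        set B := s * b with hB
        have hva : v (a ^ 2) = v a ^ 2 := hpow a 2
        have hvB : v (e * B ^ 2) = v B ^ 2 := by rw [hmul, he, one_mul, hpow]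
        rcases lt_trichotomy (v a) (v B) with h | h | h
        · -- v B dominates
          have hB0 : B ≠ 0 := by
            intro hB0
            rw [(h0 B).mpr hB0] at h
            exact absurd h (not_lt.mpr (hnn a))
          have h2 : v d = v (B ^ 2) := by
            have h3 : d = -(e * B ^ 2) + a ^ 2 := by rw [hd2]; ring
            rw [h3, hdom, hneg, hvB, hpow]
            rw [hneg, hvB, hva]
            have := hnn a
            nlinarith
          obtain ⟨j, hj⟩ := hsqv (B ^ 2) (pow_ne_zero 2 hB0) ⟨B, sq B⟩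
          exact ⟨j, by rw [h2, hj]⟩
        · -- equal
          have hB0 : B ≠ 0 := by
            intro hB0
            rw [(h0 B).mpr hB0] at h
            have ha0 := (h0 a).mp h
            apply hd
            rw [hd2, ha0, hB0]
            ring
          have ha0 : a ≠ 0 := by
            intro ha0
            rw [(h0 a).mpr ha0] at h
            exact hB0 ((h0 B).mp h.symm)
          have hq : v (a / B) = 1 := by rw [hdiv, h, div_self (hpos B hB0).ne']
          have h2 : 1 ≤ v ((a / B) ^ 2 - e) := by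
            obtain ⟨j, u, hu, hj⟩ := hapx (a / B) (div_ne_zero ha0 hB0)
            have h2 : v (u * ϖ ^ j) = r ^ j := by rw [hmul, hU u hu, hzpow, hϖ, one_mul]
            have h3 : v (a / B) = r ^ j := by
              have h4 := hdomsub (u * ϖ ^ j) (a / B) (by
                rw [h2, ← hneg, neg_sub]; exact hj)
              rw [← h4, h2]
            have hj0 : j = 0 := by
              have h5 : r ^ j = r ^ (0 : ℤ) := by rw [← h3, hq, zpow_zero]
              exact zpow_right_injective₀ hr0 hr1.ne h5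
            subst hj0
            rw [zpow_zero, zpow_zero, mul_one] at hj
            have h6 : v ((a / B) ^ 2 - u ^ 2) < 1 := by
              have h7 : (a / B) ^ 2 - u ^ 2 = (a / B - u) * (u + a / B) := by ring
              rw [h7, hmul]
              have h8 : v (u + a / B) ≤ 1 := by
                refine (hadd u (a / B)).trans ?_
                rw [hU u hu, hq, max_self]
              have h9 := hnn (a / B - u)
              have h10 := hnn (u + a / B)
              nlinarith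
            have h11 := hdom (u ^ 2 - e) ((a / B) ^ 2 - u ^ 2) (lt_of_lt_of_le h6 (hne u hu))
            have h12 : u ^ 2 - e + ((a / B) ^ 2 - u ^ 2) = (a / B) ^ 2 - e := by ring
            rw [h12] at h11
            rw [h11]
            exact hne u hu
          have h3 : v ((a / B) ^ 2 - e) ≤ 1 := by
            refine (hsub _ _).trans ?_
            rw [hpow, hq, he]; simp
          have h4 : v d = v (B ^ 2) := by
            have h5 : d = ((a / B) ^ 2 - e) * B ^ 2 := by rw [hd2]; field_simp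
            rw [h5, hmul, le_antisymm h3 h2, one_mul]
          obtain ⟨j, hj⟩ := hsqv (B ^ 2) (pow_ne_zero 2 hB0) ⟨B, sq B⟩
          exact ⟨j, by rw [h4, hj]⟩
        · -- v a dominates
          have ha0 : a ≠ 0 := by
            intro ha0
            rw [(h0 a).mpr ha0] at h
            exact absurd h (not_lt.mpr (hnn B))
          have h2 : v d = v (a ^ 2) := by
            have h3 : d = a ^ 2 + -(e * B ^ 2) := by rw [hd2]; ring
            rw [h3, hdom]
            rw [hneg, hvB, hva]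
            have := hnn B
            nlinarith
          obtain ⟨j, hj⟩ := hsqv (a ^ 2) (pow_ne_zero 2 ha0) ⟨a, sq a⟩
          exact ⟨j, by rw [h2, hj]⟩
      rcases heven d hd hdv with h | h
      · exact hd' h
      · apply hcd
        have h2 : c * d = s ^ 2 * (e * d) := by rw [hcs]; ring
        rw [h2]
        exact (IsSquare.sq s).mul h
    · -- odd
      have hcodd : v c = r ^ (2 * j + 1) := by rw [hi, hj]
      have hnev : v (a ^ 2) ≠ v (c * b ^ 2) := by
        intro h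
        by_cases ha0 : a = 0
        · rw [ha0] at h
          have h2 : c * b ^ 2 = 0 := by
            rw [← h0, ← h, h0]; ring
          apply hd
          rw [heq, ha0, h2]; ring
        · have hb0 : b ≠ 0 := by
            rintro rfl
            have h2 : v (a ^ 2) = 0 := by rw [h, h0]; ring
            exact pow_ne_zero 2 ha0 ((h0 _).mp h2)
          obtain ⟨i1, hi1⟩ := hsqv (a ^ 2) (pow_ne_zero 2 ha0) ⟨a, sq a⟩
          obtain ⟨i2, hi2⟩ := hsqv (b ^ 2) (pow_ne_zero 2 hb0) ⟨b, sq b⟩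
          rw [hmul, hi1, hi2, hcodd, ← zpow_add₀ hr0.ne'] at h
          have := zpow_right_injective₀ hr0 hr1.ne h
          omega
      rcases lt_or_gt_of_ne hnev with h | h
      · -- c b² dominates
        have hcb0 : c * b ^ 2 ≠ 0 := by
          intro h2
          rw [(h0 _).mpr h2] at h
          exact absurd h (not_lt.mpr (hnn _))
        have h2 : IsSquare (d / (-(c * b ^ 2))) := by
          apply hsq
          have h3 : d / (-(c * b ^ 2)) - 1 = -(a ^ 2 / (c * b ^ 2)) := by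
            have hcb1 : -(c * b ^ 2) ≠ 0 := neg_ne_zero.mpr hcb0
            rw [heq, div_sub_one hcb1, ← div_neg, div_left_inj' hcb1]
            ring
          rw [h3, hneg, hdiv, div_lt_one (hpos _ hcb0)]
          exact h
        apply hcd
        have h3 : c * d = (c * b) ^ 2 * (-1 * (d / (-(c * b ^ 2)))) := by
          have hb0 : b ≠ 0 := by rintro rfl; exact hcb0 (by ring)
          field_simp
        rw [h3]
        exact (IsSquare.sq (c * b)).mul (h1.mul h2)
      · -- a² dominates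
        have ha0 : a ^ 2 ≠ 0 := by
          intro h2
          rw [(h0 _).mpr h2] at h
          exact absurd h (not_lt.mpr (hnn _))
        have h2 : IsSquare (d / a ^ 2) := by
          apply hsq
          have h3 : d / a ^ 2 - 1 = -(c * b ^ 2 / a ^ 2) := by
            rw [heq, sub_div, div_self ha0]; ring
          rw [h3, hneg, hdiv, div_lt_one (hpos _ ha0)]
          exact h
        apply hd'
        have h3 : d = a ^ 2 * (d / a ^ 2) := by rw [mul_comm, div_mul_cancel₀ d ha0]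
        rw [h3]
        exact (IsSquare.sq a).mul h2

/-- the product of two nonsquares of a finite field is a square -/
theorem pad2_fin (κ : Type) [Field κ] [Finite κ] (p : ℕ) [Fact p.Prime] [CharP κ p] (hp : p ≠ 2)
    (a b : κ) (ha : ¬ IsSquare a) : IsSquare b ∨ IsSquare (a * b) := by
  classical
  have := Fintype.ofFinite κ
  by_cases hb : IsSquare b
  · exact Or.inl hb
  · right
    have hchar : ringChar κ ≠ 2 := by
      rw [ringChar.eq κ p]; exact hp
    have ha0 : a ≠ 0 := by rintro rfl; exact ha ⟨0, by simp⟩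
    have hb0 : b ≠ 0 := by rintro rfl; exact hb ⟨0, by simp⟩
    rw [← quadraticChar_one_iff_isSquare (mul_ne_zero ha0 hb0), map_mul,
      quadraticChar_neg_one_iff_not_isSquare.mpr ha, quadraticChar_neg_one_iff_not_isSquare.mpr hb]
    norm_num

theorem pad2_sub {p : ℕ} [Fact p.Prime] (x y : ℂ_[p]) : ‖x - y‖ ≤ max ‖x‖ ‖y‖ := by
  rw [sub_eq_add_neg, ← norm_neg y]
  exact IsUltrametricDist.norm_add_le_max _ _

theorem st_PAD2 (hP : ST_PRU) (hR : ST_RESK) : ST_PAD2 := by
  intro k Ω _ _ _ _ _ p _ hp2 Lc S ϖ hG e hA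
  obtain ⟨he1, he2, he3, he4, ⟨y5, hy5, hy5'⟩, he6⟩ := hA
  have hprime : p.Prime := Fact.out
  have hp2' : ¬ p ∣ 2 := by
    intro h
    exact hp2 ((Nat.prime_dvd_prime_iff_eq hprime Nat.prime_two).mp h)
  have hFF : FF Lc.S₁ ≤ FF S := FF_le hG.sub
  have hinj : Function.Injective Lc.ι := Lc.ι.injective
  set v : FF S → ℝ := fun x => nm Lc (x : Acl k Ω) with hv
  have h0 : ∀ x, v x = 0 ↔ x = 0 := by
    intro x
    simp only [hv, nm, norm_eq_zero]
    rw [map_eq_zero_iff _ hinj]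
    exact ZeroMemClass.coe_eq_zero
  have hnn : ∀ x, 0 ≤ v x := fun x => norm_nonneg _
  have hmul : ∀ x y, v (x * y) = v x * v y := by
    intro x y
    simp only [hv, nm]
    rw [← norm_mul, ← map_mul]
    rfl
  have hadd : ∀ x y, v (x + y) ≤ max (v x) (v y) := by
    intro x y
    simp only [hv, nm]
    have h2 : Lc.ι ((x + y : FF S) : Acl k Ω) = Lc.ι (x : Acl k Ω) + Lc.ι (y : Acl k Ω) := by
      rw [← map_add]; rfl
    rw [h2]
    exact IsUltrametricDist.norm_add_le_max _ _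
  have hsq : ∀ x, v (x - 1) < 1 → IsSquare x := by
    intro x hx
    obtain ⟨y, hy⟩ := hP k Ω p Lc S hG.sub 2 hp2' x hx
    exact ⟨y, by rw [hy, sq]⟩
  have hneg1 : IsSquare (-1 : FF S) := by
    obtain ⟨i, hi, hi2⟩ := Lc.I4
    refine ⟨⟨i, hFF hi⟩, ?_⟩
    apply Subtype.ext
    change (-1 : Acl k Ω) = i * i
    rw [← hi2, sq]
  have h1e : IsSquare (1 + e) := by
    have h2 : nm Lc y5 ^ 2 = 1 := by
      have h3 : Lc.ι (y5 ^ 2) = Lc.ι (1 + e) + Lc.ι (y5 ^ 2 - (1 + e)) := by
        rw [← map_add]; congr 1; ring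
      have h4 : ‖Lc.ι (y5 ^ 2)‖ = ‖Lc.ι (1 + (e : Acl k Ω))‖ := by
        have h4' : ‖Lc.ι (y5 ^ 2 - (1 + (e : Acl k Ω)))‖ < ‖Lc.ι (1 + (e : Acl k Ω))‖ :=
          lt_of_lt_of_le hy5' he3.ge
        rw [h3, IsUltrametricDist.norm_add_eq_max_of_norm_ne_norm h4'.ne', max_eq_left h4'.le]
      rw [map_pow, norm_pow] at h4
      exact h4.trans he3
    have hy0 : (y5 : Acl k Ω) ≠ 0 := by
      rintro rfl
      simp [nm] at h2
    have h5 : IsSquare ((1 + e) / (⟨y5, hFF hy5⟩ : FF S) ^ 2) := by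
      apply hsq
      have h6 : (((1 + e) / (⟨y5, hFF hy5⟩ : FF S) ^ 2 - 1 : FF S) : Acl k Ω) =
          -((y5 ^ 2 - (1 + e)) / y5 ^ 2) := by
        change ((1 + (e : Acl k Ω)) / y5 ^ 2 - 1) = _
        field_simp
        ring
      simp only [hv]
      rw [h6, nm, map_neg, norm_neg, map_div₀, norm_div, map_pow, norm_pow]
      change nm Lc (y5 ^ 2 - (1 + (e : Acl k Ω))) / nm Lc y5 ^ 2 < 1
      rw [h2, div_one]
      exact hy5'
    have h7 : (1 + e) = (⟨y5, hFF hy5⟩ : FF S) ^ 2 * ((1 + e) / (⟨y5, hFF hy5⟩ : FF S) ^ 2) := by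
      have : (⟨y5, hFF hy5⟩ : FF S) ≠ 0 := by
        intro h
        exact hy0 (congrArg Subtype.val h)
      field_simp
    rw [h7]
    exact (IsSquare.sq _).mul h5
  -- the units of `FF S₁`
  obtain ⟨κ, _, _, _, ρ, ρ1, ρsurj, ρ0, ρhom⟩ := hR k Ω p Lc
  have hnmmul : ∀ x y : Acl k Ω, nm Lc (x * y) = nm Lc x * nm Lc y := by
    intro x y; simp [nm]
  have hρe : ¬ IsSquare (ρ ⟨e, he1⟩) := by
    rintro ⟨a, ha⟩
    obtain ⟨y, hy1, hy2⟩ := ρsurj a
    have h2 := he4 y y.2 hy1
    have h3 : nm Lc (y * y : FF Lc.S₁) ≤ 1 := by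
      change nm Lc ((y : Acl k Ω) * y) ≤ 1
      rw [hnmmul]
      exact mul_le_one₀ hy1 (norm_nonneg _) hy1
    -- `y² - e`
    have h4 : nm Lc ((y * y - ⟨e, he1⟩ : FF Lc.S₁)) ≤ 1 := by
      change nm Lc ((y : Acl k Ω) * y - e) ≤ 1
      rw [nm, map_sub]
      refine (pad2_sub _ _).trans ?_
      exact max_le h3 he2.le
    have h5 := (ρhom (y * y - ⟨e, he1⟩) ⟨e, he1⟩ h4 he2.le).1
    rw [sub_add_cancel, (ρhom y y hy1 hy1).2, hy2, ha] at h5
    have h6 : ρ (y * y - ⟨e, he1⟩) = 0 := by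
      linear_combination -h5
    have h7 := (ρ0 _ h4).mp h6
    have h8 : nm Lc ((y : Acl k Ω) ^ 2 - e) < 1 := by
      rw [sq]; exact h7
    exact absurd h2 (not_le.mpr h8)
  have hsqu : ∀ u : FF Lc.S₁, nm Lc u = 1 → IsSquare (ρ u) → IsSquare (⟨u, hFF u.2⟩ : FF S) := by
    rintro u hu ⟨a, ha⟩
    obtain ⟨y, hy1, hy2⟩ := ρsurj a
    have h3 : nm Lc (y * y : FF Lc.S₁) ≤ 1 := by
      change nm Lc ((y : Acl k Ω) * y) ≤ 1
      rw [hnmmul]
      exact mul_le_one₀ hy1 (norm_nonneg _) hy1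
    have h4 : nm Lc ((u - y * y : FF Lc.S₁)) ≤ 1 := by
      change nm Lc ((u : Acl k Ω) - (y : Acl k Ω) * y) ≤ 1
      rw [nm, map_sub]
      refine (pad2_sub _ _).trans ?_
      exact max_le hu.le h3
    have h5 := (ρhom (u - y * y) (y * y) h4 h3).1
    rw [sub_add_cancel, (ρhom y y hy1 hy1).2, hy2, ha] at h5
    have h6 : ρ (u - y * y) = 0 := by
      linear_combination -h5
    have h7 : nm Lc ((u : Acl k Ω) - (y : Acl k Ω) * y) < 1 := (ρ0 _ h4).mp h6
    have h8 : nm Lc (y : Acl k Ω) = 1 := by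
      rcases lt_or_eq_of_le hy1 with h | h
      · exfalso
        have h9 := (ρ0 y hy1).mpr h
        rw [hy2] at h9
        rw [h9, mul_zero] at ha
        have h10 := (ρ0 u hu.le).mp ha
        rw [hu] at h10
        exact lt_irrefl _ h10
      · exact h
    have hy0 : (y : Acl k Ω) ≠ 0 := by
      intro h
      rw [h] at h8
      simp [nm] at h8
    have h9 : IsSquare ((⟨u, hFF u.2⟩ : FF S) / (⟨y, hFF y.2⟩ : FF S) ^ 2) := by
      apply hsq
      have h6 : (((⟨u, hFF u.2⟩ : FF S) / (⟨y, hFF y.2⟩ : FF S) ^ 2 - 1 : FF S) : Acl k Ω) =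
          ((u : Acl k Ω) - y * y) / (y * y) := by
        change ((u : Acl k Ω) / (y : Acl k Ω) ^ 2 - 1) = _
        field_simp
      simp only [hv]
      rw [h6, nm, map_div₀, norm_div, map_mul, norm_mul]
      change nm Lc ((u : Acl k Ω) - (y : Acl k Ω) * y) / (nm Lc (y : Acl k Ω) * nm Lc (y : Acl k Ω)) < 1
      rw [h8, mul_one, div_one]
      exact h7
    have h10 : (⟨u, hFF u.2⟩ : FF S) = (⟨y, hFF y.2⟩ : FF S) ^ 2 *
        ((⟨u, hFF u.2⟩ : FF S) / (⟨y, hFF y.2⟩ : FF S) ^ 2) := by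
      have : (⟨y, hFF y.2⟩ : FF S) ≠ 0 := by
        intro h
        exact hy0 (congrArg Subtype.val h)
      field_simp
    rw [h10]
    exact (IsSquare.sq _).mul h9
  have hcore := pad2_core (FF S) v h0 hnn hmul hadd (nm Lc ϖ) hG.pos hG.lt ⟨ϖ, hG.mem⟩ rfl
    (fun u => (u : Acl k Ω) ∈ FF Lc.S₁ ∧ nm Lc u = 1) (fun u hu => hu.2)
    (by
      intro x hx
      obtain ⟨j, u, hu1, hu2, hu3⟩ := hG.apx x x.2 (fun h => hx (Subtype.ext h))
      refine ⟨j, ⟨u, hFF hu1⟩, ⟨hu1, hu2⟩, ?_⟩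
      exact hu3)
    hsq e he2
    (by
      rintro u ⟨hu1, hu2⟩
      rcases pad2_fin κ p hp2 (ρ ⟨e, he1⟩) (ρ ⟨u, hu1⟩) hρe with h | h
      · left
        exact hsqu ⟨u, hu1⟩ hu2 h
      · right
        have h2 : ρ (⟨e, he1⟩ * ⟨u, hu1⟩) = ρ ⟨e, he1⟩ * ρ ⟨u, hu1⟩ :=
          (ρhom ⟨e, he1⟩ ⟨u, hu1⟩ he2.le hu2.le).2
        rw [← h2] at h
        have h3 : nm Lc ((⟨e, he1⟩ * ⟨u, hu1⟩ : FF Lc.S₁) : Acl k Ω) = 1 := by
          change nm Lc ((e : Acl k Ω) * u) = 1
          rw [hnmmul, he2, hu2, one_mul]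
        exact hsqu _ h3 h)
    (by
      rintro u ⟨hu1, hu2⟩
      exact he4 u hu1 hu2.le)
    (by
      rintro u ⟨hu1, hu2⟩
      exact he6 u hu1 hu2.le)
    (by
      have h2 := he6 0 (zero_mem _) (by simp [nm])
      apply le_antisymm
      · change nm Lc (1 - (e : Acl k Ω)) ≤ 1
        rw [nm, map_sub]
        refine (pad2_sub _ _).trans ?_
        apply max_le
        · simp
        · exact he2.le
      · change 1 ≤ nm Lc (1 - (e : Acl k Ω))
        have h3 : nm Lc ((0 : Acl k Ω) ^ 2 - (1 - e)) = nm Lc (1 - (e : Acl k Ω)) := by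
          rw [nm, nm, ← norm_neg, ← map_neg]
          congr 2
          ring
        rw [← h3]; exact h2)
    hneg1
  obtain ⟨c1, c2, c3, c4⟩ := hcore
  exact ⟨hneg1, c1, h1e, c2, c3, c4⟩

end Pool.Agent.Helper14.BSC
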